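import Pool.Agent.Q256.FX.StmD
import Pool.Agent.TH450.FG.F

/-!
# Project HX (helper256): few exceptional classes for Hénon maps, statements of the jobs

A generalized Hénon map `f(x, y) = (y, F(y) - δ x)`; its orbits are the sequences `x` with
`x (n + 1) + δ x (n - 1) = F(x n)`.
-/

set_option autoImplicit false

open MvPolynomial Filter Topology

namespace Pool.Agent.Q256.HX

open Pool.Agent.TH450.FG (PF)
open Pool.Agent.Q256.FX (cn)

/-- HINV: no nonconstant polynomial is semi-invariant under a Hénon map. -/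
def S_hinv : Prop := ∀ (K : Type) [Field K] (F : Polynomial K) (δ c : K), 2 ≤ F.natDegree →
  δ ≠ 0 → ∀ p : MvPolynomial (Fin 2) K, p ≠ 0 →
  aeval ![(X 1 : MvPolynomial (Fin 2) K), Polynomial.aeval (X 1 : MvPolynomial (Fin 2) K) F -
    C δ * X 0] p = C c * p → ∃ a : K, p = C a

/-- HCURVE: an infinite orbit is not contained in a curve. -/
def S_hcurve : Prop := ∀ (K : Type) [Field K] (F : Polynomial K) (δ : K), 2 ≤ F.natDegree →
  δ ≠ 0 → ∀ x : ℕ → K, (∀ n, x (n + 2) = F.eval (x (n + 1)) - δ * x n) →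
    Function.Injective (fun n => (x n, x (n + 1))) →
    ∀ p : MvPolynomial (Fin 2) K, (∀ n, aeval ![x n, x (n + 1)] p = 0) → p = 0

/-- HJAC: an orbit which lies in a finite dimensional space over the constants and is not contained
in a curve has constant Jacobian. -/
def S_hjac : Prop := ∀ (k K : Type) [Field k] [CharZero k] [Field K] [Algebra k K]
  (L : Submodule k K), Module.Finite k L → ∀ (F : Polynomial K) (δ : K) (x : ℕ → K),
    (∀ n, x n ∈ L) → (∀ n, x (n + 2) = F.eval (x (n + 1)) - δ * x n) →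
    (∀ p : MvPolynomial (Fin 2) K, (∀ n, aeval ![x n, x (n + 1)] p = 0) → p = 0) →
    IsAlgebraic k δ

/-- HPF: a function field of one variable has a family of places with product formula such that
the spaces `L(D)` are finite dimensional. -/
def S_hpf : Prop := ∀ (k K : Type) [Field k] [CharZero k] [Field K] [Algebra k K],
  (⊤ : IntermediateField k K).FG → ∀ t : K, Transcendental k t →
  Algebra.IsAlgebraic (IntermediateField.adjoin k {t}) K →
  ∃ Q : PF.{0, 0, 0} k K, ∀ c : Q.Pl → ℝ, {v | c v ≠ 1}.Finite →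
    ∃ L : Submodule k K, Module.Finite k L ∧ ∀ z : K, (∀ v, Q.V v z ≤ c v) → z ∈ L

/-- HLOC: orbits of bounded height are bounded at all places. -/
def S_hloc : Prop := ∀ (k K : Type) [Field k] [CharZero k] [Field K] [Algebra k K]
  (Q : PF.{0, 0, 0} k K) (F : Polynomial K) (δ : K), 2 ≤ F.natDegree → δ ≠ 0 →
  ∀ x : ℤ → K, (∀ n, x (n + 1) + δ * x (n - 1) = F.eval (x n)) →
  ∀ (t : K), Transcendental k t → ∀ (m b : ℕ) (θ : Fin m → K),
    (∀ n, ∃ w : Fin m → K, x n = ∑ l, w l * θ l ∧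
      ∀ l, ∃ G : MvPolynomial (Fin 2) k, G ≠ 0 ∧ G.totalDegree ≤ b ∧ aeval ![w l, t] G = 0) →
    ∃ c : Q.Pl → ℝ, {v | c v ≠ 1}.Finite ∧ ∀ n v, Q.V v (x n) ≤ c v

/-- HRIG: an infinite orbit which is bounded at all places, with constant Jacobian, is constant up
to an affine change of the coordinate. -/
def S_hrig : Prop := ∀ (k K : Type) [Field k] [CharZero k] [Field K] [Algebra k K]
  (Q : PF.{0, 0, 0} k K) (F : Polynomial K) (δ : K), 2 ≤ F.natDegree → δ ≠ 0 →
  IsAlgebraic k δ →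
  ∀ x : ℤ → K, (∀ n, x (n + 1) + δ * x (n - 1) = F.eval (x n)) →
    Function.Injective (fun n => (x n, x (n + 1))) →
  ∀ c : Q.Pl → ℝ, {v | c v ≠ 1}.Finite → (∀ n v, Q.V v (x n) ≤ c v) →
    ∀ i j p q : ℤ, x p ≠ x q → IsAlgebraic k ((x i - x j) / (x p - x q))

/-- HBAK: an infinite orbit of bounded height over a function field of one variable is constant up
to an affine change of the coordinate. -/
def S_hbak : Prop := ∀ (k K : Type) [Field k] [CharZero k] [Field K] [Algebra k K],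
  (⊤ : IntermediateField k K).FG → ∀ t : K, Transcendental k t →
  Algebra.IsAlgebraic (IntermediateField.adjoin k {t}) K →
  ∀ (F : Polynomial K) (δ : K), 2 ≤ F.natDegree → δ ≠ 0 →
  ∀ x : ℤ → K, (∀ n, x (n + 1) + δ * x (n - 1) = F.eval (x n)) →
    Function.Injective (fun n => (x n, x (n + 1))) →
  ∀ (m b : ℕ) (θ : Fin m → K),
    (∀ n, ∃ w : Fin m → K, x n = ∑ l, w l * θ l ∧
      ∀ l, ∃ G : MvPolynomial (Fin 2) k, G ≠ 0 ∧ G.totalDegree ≤ b ∧ aeval ![w l, t] G = 0) →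
    IsAlgebraic k δ ∧
      ∀ i j p q : ℤ, x p ≠ x q → IsAlgebraic k ((x i - x j) / (x p - x q))

/-- HBAKN: the same over function fields of any transcendence degree. -/
def S_hbakn : Prop := ∀ (k K : Type) [Field k] [CharZero k] [Field K] [Algebra k K],
  (⊤ : IntermediateField k K).FG → ∀ (r : ℕ) (y : Fin r → K), AlgebraicIndependent k y →
  (∀ c : K, IsAlgebraic (IntermediateField.adjoin k (Set.range y)) c) →
  ∀ (F : Polynomial K) (δ : K), 2 ≤ F.natDegree → δ ≠ 0 →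
  ∀ x : ℤ → K, (∀ n, x (n + 1) + δ * x (n - 1) = F.eval (x n)) →
    Function.Injective (fun n => (x n, x (n + 1))) →
  ∀ (m b : ℕ) (θ : Fin m → K),
    (∀ n, ∃ w : Fin m → K, x n = ∑ l, w l * θ l ∧
      ∀ l, ∃ G : MvPolynomial (Fin (r + 1)) k, G ≠ 0 ∧ G.totalDegree ≤ b ∧
        aeval (cn (w l) y) G = 0) →
    IsAlgebraic k δ ∧
      ∀ i j p q : ℤ, x p ≠ x q → IsAlgebraic k ((x i - x j) / (x p - x q))

/-- HCONJ: conjugation to a map over a subfield. -/
def S_hconj : Prop := ∀ (K : Type) [Field K] [CharZero K] (E : Subfield K) (F : Polynomial K)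
  (δ : K), 2 ≤ F.natDegree → δ ∈ E →
  ∀ x : ℤ → K, (∀ n, x (n + 1) + δ * x (n - 1) = F.eval (x n)) →
    Function.Injective (fun n => (x n, x (n + 1))) →
    (∀ i j p q : ℤ, x p ≠ x q → (x i - x j) / (x p - x q) ∈ E) →
    ∃ (a b : K) (G : Polynomial K), a ≠ 0 ∧ (∀ j, G.coeff j ∈ E) ∧
      ∀ z, F.eval (a * z + b) = a * G.eval z + (1 + δ) * b

/-- HHT: the height of the periodic points over number fields of bounded degree. -/
def S_hht : Prop := ∀ d D : ℕ, 2 ≤ d → ∃ A : ℕ, ∀ (K : Type) [Field K] [NumberField K],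
  Module.finrank ℚ K ≤ D → ∀ X : ℕ, 2 ≤ X → ∀ (F : Polynomial K) (δ : K), F.natDegree = d →
    δ ≠ 0 → (∀ i, Height.mulHeight₁ (F.coeff i) ≤ X) → Height.mulHeight₁ δ ≤ X →
  ∀ x : ℤ → K, (∀ n, x (n + 1) + δ * x (n - 1) = F.eval (x n)) →
    (∃ m : ℤ, m ≠ 0 ∧ ∀ n, x (n + m) = x n) → ∀ n, Height.mulHeight₁ (x n) ≤ (X : ℝ) ^ A

/-- HCNT: the number of the periodic points with a bounded period. -/
def S_hcnt : Prop := ∀ d N : ℕ, 2 ≤ d → ∃ B : ℕ, ∀ (K : Type) [Field K] (F : Polynomial K)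
  (δ : K), F.natDegree = d → δ ≠ 0 → ∀ S : Finset (K × K),
    (∀ P ∈ S, ∃ m : ℕ, 1 ≤ m ∧ m ≤ N ∧ (fun P : K × K => (P.2, F.eval P.2 - δ * P.1))^[m] P = P) →
    S.card ≤ B

end Pool.Agent.Q256.HX
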