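import Pool.Agent.Q256.HX.FewH
import Pool.Agent.Q256.FX.DatD

/-!
# Project HX (helper256): the data of an exceptional Hénon map over a number field
-/

set_option autoImplicit false

open Filter Topology

namespace Pool.Agent.Q256.HX

open Pool.Agent.Q256.FX (Co S_coord S_gen ht_sub hq hq_zero)

/-- an orbit lies in every subfield containing the coefficients and two consecutive coordinates -/
theorem orb_mem {K : Type} [Field K] [Algebra ℚ K] (E : IntermediateField ℚ K) (F : Polynomial K)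
    (δ : K) (hF : ∀ j, F.coeff j ∈ E) (hδ : δ ∈ E) (hδ0 : δ ≠ 0) (x : ℤ → K)
    (hx : ∀ n, x (n + 1) + δ * x (n - 1) = F.eval (x n)) (h0 : x 0 ∈ E) (h1 : x 1 ∈ E) :
    ∀ n, x n ∈ E := by
  have hev : ∀ z ∈ E, F.eval z ∈ E := by
    intro z hz
    rw [Polynomial.eval_eq_sum_range]
    exact sum_mem fun j _ => mul_mem (hF j) (pow_mem hz _)
  have key : ∀ m : ℕ, x m ∈ E ∧ x (m + 1) ∈ E ∧ x (-m) ∈ E ∧ x (-m + 1) ∈ E := by
    intro m
    induction m with
    | zero => exact ⟨by simpa using h0, by simpa using h1, by simpa using h0, by simpa using h1⟩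
    | succ m ih =>
      obtain ⟨i1, i2, i3, i4⟩ := ih
      refine ⟨?_, ?_, ?_, ?_⟩
      · push_cast
        exact i2
      · have h5 := hx ((m : ℤ) + 1)
        have e1 : ((m : ℤ) + 1 - 1) = m := by ring
        rw [e1] at h5
        have h6 : x ((m : ℤ) + 1 + 1) = F.eval (x (m + 1)) - δ * x m := by
          rw [← h5]
          ring
        push_cast
        rw [h6]
        exact sub_mem (hev _ i2) (mul_mem hδ i1)
      · have h5 := hx (-(m : ℤ))
        have e1 : (-(m : ℤ) - 1) = -((m + 1 : ℕ) : ℤ) := by push_cast; ring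
        rw [e1] at h5
        have h6 : x (-((m + 1 : ℕ) : ℤ)) = (F.eval (x (-m)) - x (-m + 1)) / δ := by
          rw [← h5]
          field_simp
          ring
        rw [h6]
        exact div_mem (sub_mem (hev _ i3) i4) hδ
      · have e1 : (-((m + 1 : ℕ) : ℤ) + 1) = -(m : ℤ) := by push_cast; ring
        rw [e1]
        exact i3
  intro n
  rcases Int.eq_nat_or_neg n with ⟨m, h | h⟩
  · rw [h]
    exact (key m).1
  · rw [h]
    exact (key m).2.2.1

theorem exists_hdt (hcoord : S_coord) (hgen : S_gen) (d D A1 : ℕ) :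
    ∃ A : ℕ, ∀ (K : Type) [Field K] [NumberField K], Module.finrank ℚ K ≤ D →
      ∀ X : ℕ, 2 ≤ X → ∀ N : ℕ, 1 ≤ N →
      ∀ (F : Polynomial K) (δ : K), F.natDegree = d → δ ≠ 0 →
      (∀ i, Height.mulHeight₁ (F.coeff i) ≤ X) → Height.mulHeight₁ δ ≤ X →
      ∀ x : ℤ → K, (∀ n, x (n + 1) + δ * x (n - 1) = F.eval (x n)) →
      (∀ n : ℤ, n.natAbs ≤ N → Height.mulHeight₁ (x n) ≤ (X : ℝ) ^ A1) →
      (∀ i j : ℤ, i.natAbs ≤ N → j.natAbs ≤ N → i ≠ j → ¬ (x i = x j ∧ x (i + 1) = x (j + 1))) →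
      ∀ σ : K →+* ℂ, ∃ r θ, HDt d D A N X (F.map σ, σ δ) r θ (fun n => σ (x n)) := by
  classical
  obtain ⟨Cg, hCg⟩ := hgen D ((d + 1) + 3)
  obtain ⟨Cc, hCc⟩ := hcoord D
  set A2 : ℕ := (A1 + 1) * (Cg * D + Cg + 1) with hA2
  refine ⟨A2 * Cc, ?_⟩
  intro K _ _ hK X hX N hN F δ hFd hδ hFX hδX x hx horb hinj σ
  have hX1 : (1 : ℝ) ≤ X := by exact_mod_cast (by omega : 1 ≤ X)
  have hXA : (X : ℝ) ≤ (X : ℝ) ^ (A1 + 1) := le_self_pow₀ hX1 (by omega)
  -- the generators
  set gens : Fin (d + 1) ⊕ Fin 3 → K := Sum.elim (fun j => F.coeff j) ![δ, x 0, x 1] with hgens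
  set E : IntermediateField ℚ K := IntermediateField.adjoin ℚ (Set.range gens) with hE
  have hmem : ∀ l, gens l ∈ E := fun l => IntermediateField.subset_adjoin _ _ ⟨l, rfl⟩
  have hgenh : ∀ l, Height.mulHeight₁ (gens l) ≤ (X : ℝ) ^ (A1 + 1) := by
    intro l
    rcases l with j | l
    · exact (hFX j).trans hXA
    · fin_cases l
      · exact hδX.trans hXA
      · exact (horb 0 (by simp)).trans (pow_le_pow_right₀ hX1 (by omega))
      · exact (horb 1 (by simpa using hN)).trans (pow_le_pow_right₀ hX1 (by omega))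
  have hFE : ∀ j, F.coeff j ∈ E := by
    intro j
    by_cases hj : j < d + 1
    · exact hmem (.inl ⟨j, hj⟩)
    · rw [Polynomial.coeff_eq_zero_of_natDegree_lt (by omega)]
      exact zero_mem E
  have hxE : ∀ n, x n ∈ E := orb_mem E F δ hFE (hmem (.inr 0)) hδ x hx (hmem (.inr 1))
    (hmem (.inr 2))
  -- the field
  have hEfin : Module.finrank ℚ E ≤ D := by
    refine le_trans ?_ hK
    exact Submodule.finrank_le E.toSubalgebra.toSubmodule
  set cc : Fin ((d + 1) + 3) → E := fun j => ⟨gens (finSumFinEquiv.symm j), hmem _⟩ with hcc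
  have htop' : ∀ inst : Algebra ℚ E, @IntermediateField.adjoin ℚ _ E _ inst (Set.range cc) = ⊤ := by
    intro inst
    obtain rfl : inst = E.algebra' := Subsingleton.elim _ _
    apply IntermediateField.map_injective E.val
    rw [IntermediateField.adjoin_map]
    have e1 : E.val '' (Set.range cc) = Set.range gens := by
      ext z
      constructor
      · rintro ⟨_, ⟨j, rfl⟩, rfl⟩
        exact ⟨finSumFinEquiv.symm j, rfl⟩
      · rintro ⟨l, rfl⟩
        exact ⟨cc (finSumFinEquiv l), ⟨finSumFinEquiv l, rfl⟩, by simp [hcc]⟩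
    rw [e1, ← hE]
    ext z
    constructor
    · intro hz
      exact ⟨⟨z, hz⟩, trivial, rfl⟩
    · rintro ⟨y, -, rfl⟩
      exact y.2
  have htop : IntermediateField.adjoin ℚ (Set.range cc) = ⊤ := htop' _
  have hA1A2 : A1 + 1 ≤ A2 := by
    rw [hA2]
    exact Nat.le_mul_of_pos_right _ (by omega)
  set H1 : ℕ := X ^ (A1 + 1) with hH1
  have hH1' : ((H1 : ℕ) : ℝ) = (X : ℝ) ^ (A1 + 1) := by rw [hH1]; push_cast; rfl
  have hH12 : 2 ≤ H1 := le_trans hX (by
    rw [hH1]
    exact Nat.le_self_pow (by omega) X)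
  obtain ⟨θ, hθtop, hθH⟩ := hCg E hEfin cc htop H1 hH12 (by
    intro j
    rw [hH1']
    exact (ht_sub E _).trans (hgenh _))
  set H2 : ℕ := X ^ A2 with hH2
  have hH2' : ((H2 : ℕ) : ℝ) = (X : ℝ) ^ A2 := by rw [hH2]; push_cast; rfl
  have hH22 : 2 ≤ H2 := le_trans hX (by
    rw [hH2]
    exact Nat.le_self_pow (by omega) X)
  have hθ2 : Height.mulHeight₁ θ ≤ (H2 : ℝ) := by
    refine hθH.trans ?_
    rw [hH1', ← pow_mul, hH2']
    refine pow_le_pow_right₀ hX1 ?_
    rw [hA2]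
    exact Nat.mul_le_mul_left _ (by omega)
  obtain ⟨hind, hco⟩ := hCc E hEfin θ hθtop H2 hH22 hθ2
  set r : ℕ := Module.finrank ℚ E with hr
  have hr1 : 1 ≤ r := Module.finrank_pos
  -- coordinates of an element of `E`
  have hCoE : ∀ z : E, Height.mulHeight₁ z ≤ (X : ℝ) ^ A2 →
      Co r (σ (θ : K)) (X ^ (A2 * Cc)) (σ (z : K)) := by
    intro z hzH
    obtain ⟨b, hb, hbH⟩ := hco z (by rw [hH2']; exact hzH)
    refine ⟨b, ?_, fun l => (hbH l).trans (by rw [hH2, ← pow_mul])⟩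
    have h1 : (z : K) = ((∑ l, (b l : E) * θ ^ (l : ℕ) : E) : K) := congrArg _ hb
    rw [h1]
    push_cast
    rw [map_sum]
    refine Finset.sum_congr rfl fun l _ => ?_
    rw [map_mul, map_pow, map_ratCast]
  have hCo : ∀ z : K, z ∈ E → Height.mulHeight₁ z ≤ (X : ℝ) ^ A2 →
      Co r (σ (θ : K)) (X ^ (A2 * Cc)) (σ z) := by
    intro z hz hzH
    exact hCoE ⟨z, hz⟩ ((ht_sub E _).trans hzH)
  refine ⟨r, σ (θ : K), ?_⟩
  refine ⟨hr1, hEfin, ?_, ?_, ?_, ?_, ?_, ?_, ?_, ?_, ?_⟩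
  · show (F.map σ).natDegree = d
    rw [Polynomial.natDegree_map_eq_of_injective σ.injective]
    exact hFd
  · exact (map_ne_zero σ).2 hδ
  · intro b hb
    apply hind b
    have h1 : σ ((∑ l, (b l : E) * θ ^ (l : ℕ) : E) : K) = 0 := by
      rw [← hb]
      push_cast
      simp
    have h2 : ((∑ l, (b l : E) * θ ^ (l : ℕ) : E) : K) = 0 := (map_eq_zero σ).1 h1
    exact_mod_cast h2
  · have h1 := hCoE (θ ^ r) ?_
    · push_cast at h1
      rwa [map_pow] at h1
    · rw [Height.mulHeight₁_pow]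
      calc Height.mulHeight₁ θ ^ r ≤ ((H1 : ℝ) ^ Cg) ^ r :=
            pow_le_pow_left₀ (Height.mulHeight₁_nonneg _) hθH r
        _ = (X : ℝ) ^ ((A1 + 1) * (Cg * r)) := by rw [hH1', ← pow_mul, ← pow_mul, ← mul_assoc]
        _ ≤ (X : ℝ) ^ A2 := by
          refine pow_le_pow_right₀ hX1 ?_
          rw [hA2]
          refine Nat.mul_le_mul_left _ ?_
          have : Cg * r ≤ Cg * D := Nat.mul_le_mul_left _ hEfin
          omega
  · intro j
    show Co r _ _ ((F.map σ).coeff j)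
    rw [Polynomial.coeff_map]
    exact hCo _ (hFE j) ((hFX j).trans (hXA.trans (pow_le_pow_right₀ hX1 hA1A2)))
  · exact hCo _ (hmem (.inr 0)) (hδX.trans (hXA.trans (pow_le_pow_right₀ hX1 hA1A2)))
  · intro n
    show σ (x (n + 1)) + σ δ * σ (x (n - 1)) = (F.map σ).eval (σ (x n))
    rw [Polynomial.eval_map_apply, ← hx, map_add, map_mul]
  · intro n hn
    exact hCo _ (hxE n) ((horb n hn).trans (pow_le_pow_right₀ hX1 (by omega)))
  · rintro i j hi hj hij ⟨h1, h2⟩
    exact hinj i j hi hj hij ⟨σ.injective h1, σ.injective h2⟩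

end Pool.Agent.Q256.HX
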