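import Pool.Agent.Q256.HX.GnrH

/-!
# Project HX (helper256): few exceptional classes of Hénon maps over number fields of bounded degree
-/

set_option autoImplicit false

open MvPolynomial Filter Topology

namespace Pool.Agent.Q256.HX

open Pool.Agent.Q256.FX (UF RR gm gh gh_apply at' gm_eq gm_ne ne_gm kf cn Co Small S_absD S_alg
  charZero_kf charZero_germC big_or_reps)

/-- the data of an exceptional Hénon map -/
structure HDt (d D A N X : ℕ) (g : HC) (r : ℕ) (θ : ℂ) (x : ℤ → ℂ) : Prop where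
  r1 : 1 ≤ r
  rD : r ≤ D
  deg : g.1.natDegree = d
  del : g.2 ≠ 0
  ind : ∀ v : Fin r → ℚ, ∑ l, (v l : ℂ) * θ ^ (l : ℕ) = 0 → v = 0
  pow : Co r θ (X ^ A) (θ ^ r)
  cfs : ∀ j, Co r θ (X ^ A) (g.1.coeff j)
  dco : Co r θ (X ^ A) g.2
  rcn : ∀ n : ℤ, x (n + 1) + g.2 * x (n - 1) = g.1.eval (x n)
  orb : ∀ n : ℤ, n.natAbs ≤ N → Co r θ (X ^ A) (x n)
  inj : ∀ i j : ℤ, i.natAbs ≤ N → j.natAbs ≤ N → i ≠ j → ¬ (x i = x j ∧ x (i + 1) = x (j + 1))

theorem HDt.mono {d D A N X N' X' r : ℕ} {g : HC} {θ : ℂ} {x : ℤ → ℂ}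
    (h : HDt d D A N X g r θ x) (hN : N' ≤ N) (hX : X ≤ X') : HDt d D A N' X' g r θ x where
  r1 := h.r1
  rD := h.rD
  deg := h.deg
  del := h.del
  ind := h.ind
  pow := h.pow.mono (Nat.pow_le_pow_left hX A)
  cfs := fun j => (h.cfs j).mono (Nat.pow_le_pow_left hX A)
  dco := h.dco.mono (Nat.pow_le_pow_left hX A)
  rcn := h.rcn
  orb := fun n hn => (h.orb n (hn.trans hN)).mono (Nat.pow_le_pow_left hX A)
  inj := fun i j hi hj => h.inj i j (hi.trans hN) (hj.trans hN)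

/-- the coordinates -/
def zzH (d : ℕ) (x : ℕ × HC → ℤ → ℂ) : Fin (d + 1) ⊕ Fin 3 → ℕ × HC → ℂ
  | .inl j => fun ω => ω.2.1.coeff j
  | .inr l => ![fun ω => ω.2.2, fun ω => x ω 0, fun ω => x ω 1] l

theorem contraH (habs : S_absD) (halg : S_alg) (hbn : S_hbakn) (hcj : S_hconj)
    (d : ℕ) (hd : 2 ≤ d) (D A a : ℕ) (ha : 1 ≤ a)
    (X : ℕ → ℕ) (hX2 : ∀ N, 2 ≤ X N) (hXt : Tendsto X atTop atTop)
    (𝒢 : ℕ → Finset HC) (hcard : ∀ N, (N + 1) * X N < (𝒢 N).card ^ a)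
    (hrep : ∀ N, ∀ F ∈ 𝒢 N, ∀ G ∈ 𝒢 N, CJH F G → F = G)
    (hdat : ∀ N, ∀ F ∈ 𝒢 N, ∃ r θ x, HDt d D A (N + 1) (X N) F r θ x) : False := by
  classical
  have hex : ∀ ω : ℕ × HC, ∃ (r : ℕ) (θ : ℂ) (x : ℤ → ℂ),
      ω.2 ∈ 𝒢 ω.1 → HDt d D A (ω.1 + 1) (X ω.1) ω.2 r θ x := by
    intro ω
    by_cases h : ω.2 ∈ 𝒢 ω.1
    · obtain ⟨r, θ, x, h1⟩ := hdat ω.1 ω.2 h
      exact ⟨r, θ, x, fun _ => h1⟩
    · exact ⟨0, 0, 0, fun h' => absurd h' h⟩
  choose r θ x hdt using hex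
  set T : Set (ℕ × HC) := {ω | ω.2 ∈ 𝒢 ω.1} with hT
  have hfib : ∀ N, {s | (N, s) ∈ T} = (𝒢 N : Set HC) := fun N => rfl
  set 𝒰 : Ultrafilter ℕ := Filter.hyperfilter ℕ with h𝒰
  have h𝒰le : (𝒰 : Filter ℕ) ≤ atTop := Nat.hyperfilter_le_atTop
  have hns : ¬ Small 𝒰 X a T := by
    rintro ⟨C, hC⟩
    obtain ⟨N, hN, hNC⟩ := (hC.and (h𝒰le (eventually_ge_atTop C))).exists
    have h1 := hN.2
    rw [hfib, Set.ncard_coe_finset] at h1
    have h2 := hcard N
    have h3 : C * X N ≤ (N + 1) * X N := Nat.mul_le_mul_right _ (by omega)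
    omega
  -- the degree is constant
  obtain ⟨ρ, hρ⟩ : ∃ ρ : ℕ, ¬ Small 𝒰 X a {ω | ω ∈ T ∧ r ω = ρ} := by
    by_contra hcon
    push Not at hcon
    have h1 : ∀ n : ℕ, Small 𝒰 X a {ω | ω ∈ T ∧ r ω ≤ n} := by
      intro n
      induction n with
      | zero =>
        refine Pool.Agent.Q175.FX.Small.mono (hcon 0) ?_
        rintro ω ⟨h1, h2⟩
        exact ⟨h1, by omega⟩
      | succ n ih =>
        refine Pool.Agent.Q175.FX.Small.mono (Pool.Agent.Q175.FX.Small.union ih (hcon (n + 1))) ?_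
        rintro ω ⟨h1, h2⟩
        rcases Nat.lt_or_ge (r ω) (n + 1) with h3 | h3
        · exact Or.inl ⟨h1, by omega⟩
        · exact Or.inr ⟨h1, by omega⟩
    refine hns (Pool.Agent.Q175.FX.Small.mono (h1 D) ?_)
    intro ω hω
    exact ⟨hω, (hdt ω hω).rD⟩
  set T' : Set (ℕ × HC) := {ω | ω ∈ T ∧ r ω = ρ} with hT'
  have hTfin : ∀ N, {s | (N, s) ∈ T'}.Finite := fun N =>
    (Finset.finite_toSet (𝒢 N)).subset fun s hs => hs.1
  have hρ1 : 1 ≤ ρ := by
    by_contra h0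
    apply hρ
    have h1 : T' = ∅ := by
      rw [Set.eq_empty_iff_forall_notMem]
      rintro ω ⟨h1, h2⟩
      have := (hdt ω h1).r1
      omega
    rw [h1]
    refine ⟨0, Eventually.of_forall fun N => ?_⟩
    simp
    omega
  have hdt' : ∀ ω ∈ T', HDt d D A (ω.1 + 1) (X ω.1) ω.2 ρ (θ ω) (x ω) := by
    rintro ω ⟨h1, h2⟩
    have := hdt ω h1
    rwa [h2] at this
  obtain ⟨w, hTw, hsub, K, _, _, ψ, n, y, z, t, hFG, hind, hyalg, hz, hθt, hstar⟩ :=
    habs HC 𝒰 X (hXt.mono_left h𝒰le) hX2 (Fin (d + 1) ⊕ Fin 3) ρ θ (zzH d x) T' A a ha hρ1 hTfin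
      (fun ω hω => (hdt' ω hω).ind) (fun ω hω => (hdt' ω hω).pow)
      (by
        intro ω hω l
        rcases l with j | l
        · exact (hdt' ω hω).cfs j
        · fin_cases l
          · exact (hdt' ω hω).dco
          · exact (hdt' ω hω).orb 0 (by simp)
          · exact (hdt' ω hω).orb 1 (by simp)) hρ
  have hTae : ∀ᶠ ω in (w.W : Filter (ℕ × HC)), ω ∈ T' := hTw
  have hNae : ∀ j : ℕ, ∀ᶠ ω in (w.W : Filter (ℕ × HC)), j ≤ ω.1 := fun j =>
    w.tendsto (h𝒰le (eventually_ge_atTop j))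
  have : CharZero (kf 𝒰 X) := charZero_kf 𝒰 X
  have : CharZero K := by
    have : CharZero (RR w ℂ) := charZero_germC (w.W : Filter (ℕ × HC))
    exact (ψ : K →+* RR w ℂ).charZero
  have hψinj : Function.Injective ψ := (ψ : K →+* RR w ℂ).injective
  -- the generic map
  set F : Polynomial K := ∑ j : Fin (d + 1), Polynomial.monomial (j : ℕ) (z (.inl j)) with hF
  set δ : K := z (.inr 0) with hδ
  have hFψ : F.map (ψ : K →+* RR w ℂ) = (Fhat d).map (gh w ℂ) := by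
    rw [hF, Fhat, Polynomial.map_sum, Polynomial.map_sum,
      ← Fin.sum_univ_eq_sum_range (fun j => ((Polynomial.monomial j)
        (fun ω : ℕ × HC => ω.2.1.coeff j)).map (gh w ℂ)) (d + 1)]
    refine Finset.sum_congr rfl fun j _ => ?_
    rw [Polynomial.map_monomial, Polynomial.map_monomial]
    congr 1
    exact hz _
  have hδψ : ψ δ = gm w (fun ω => ω.2.2) := hz _
  have hFcoeff : F.coeff d = z (.inl (Fin.last d)) := by
    rw [hF, Polynomial.finsetSum_coeff]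
    rw [Finset.sum_eq_single (Fin.last d)]
    · simp
    · intro j _ hj
      rw [Polynomial.coeff_monomial, if_neg]
      intro h
      exact hj (Fin.ext (by simpa using h))
    · simp
  have hFd : F.coeff d ≠ 0 := by
    intro h0
    have h1 : ψ (F.coeff d) = gm w (fun ω => ω.2.1.coeff d) := by
      rw [hFcoeff]
      exact hz _
    have h2 : gm w (fun ω : ℕ × HC => ω.2.1.coeff d) ≠ 0 := by
      apply ne_gm
      filter_upwards [hTae] with ω hω
      have h3 := (hdt' ω hω).deg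
      have h4 : ω.2.1 ≠ 0 := by
        intro h4
        rw [h4, Polynomial.natDegree_zero] at h3
        omega
      rw [← h3]
      exact Polynomial.leadingCoeff_ne_zero.2 h4
    apply h2
    rw [← h1, h0, map_zero]
  have hFdeg : 2 ≤ F.natDegree := le_trans hd (Polynomial.le_natDegree_of_ne_zero hFd)
  have hδ0 : δ ≠ 0 := by
    intro h0
    have h2 : gm w (fun ω : ℕ × HC => ω.2.2) ≠ 0 := by
      apply ne_gm
      filter_upwards [hTae] with ω hω
      exact (hdt' ω hω).del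
    apply h2
    rw [← hδψ, h0, map_zero]
  -- the germs of the orbit
  have hgrec : ∀ n : ℤ, gm w (fun ω => x ω (n + 1)) + gm w (fun ω => ω.2.2) *
      gm w (fun ω => x ω (n - 1)) =
        ((Fhat d).map (gh w ℂ)).eval (gm w (fun ω => x ω n)) := by
    intro n
    have h1 : ((Fhat d).map (gh w ℂ)).eval (gm w (fun ω => x ω n)) =
        gm w ((Fhat d).eval (fun ω => x ω n)) := by
      rw [← gh_apply, ← gh_apply, Polynomial.eval_map_apply]
    rw [h1]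
    have h2 : gm w (fun ω => x ω (n + 1)) + gm w (fun ω => ω.2.2) *
        gm w (fun ω => x ω (n - 1)) =
          gm w ((fun ω => x ω (n + 1)) + (fun ω => ω.2.2) * (fun ω => x ω (n - 1))) := rfl
    rw [h2, gm_eq]
    filter_upwards [hTae] with ω hω
    have h3 := (hdt' ω hω).rcn n
    have h4 : (Fhat d).eval (fun ω => x ω n) ω = ω.2.1.eval (x ω n) := by
      have h5 : (Fhat d).eval (fun ω => x ω n) ω =
          at' ω ((Fhat d).eval (fun ω => x ω n)) := rfl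
      rw [h5, ← Polynomial.eval_map_apply, at_Fhat ω (hdt' ω hω).deg.le]
      rfl
    rw [h4, ← h3]
    rfl
  have hlift : ∀ n : ℤ, ∃ c : K, ψ c = gm w (fun ω => x ω n) := by
    have hpair : ∀ m : ℕ, (∃ c : K, ψ c = gm w (fun ω => x ω (m : ℤ))) ∧
        (∃ c : K, ψ c = gm w (fun ω => x ω ((m : ℤ) + 1))) ∧
        (∃ c : K, ψ c = gm w (fun ω => x ω (-(m : ℤ)))) ∧
        (∃ c : K, ψ c = gm w (fun ω => x ω (-(m : ℤ) + 1))) := by
      have hev : ∀ c : K, ((Fhat d).map (gh w ℂ)).eval (ψ c) = ψ (F.eval c) := by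
        intro c
        rw [← hFψ]
        exact Polynomial.eval_map_apply _ _
      intro m
      induction m with
      | zero =>
        refine ⟨⟨z (.inr 1), ?_⟩, ⟨z (.inr 2), ?_⟩, ⟨z (.inr 1), ?_⟩, ⟨z (.inr 2), ?_⟩⟩ <;>
          rw [hz] <;> rfl
      | succ m ih =>
        obtain ⟨⟨c1, h1⟩, ⟨c2, h2⟩, ⟨c3, h3⟩, ⟨c4, h4⟩⟩ := ih
        refine ⟨⟨c2, ?_⟩, ⟨F.eval c2 - δ * c1, ?_⟩, ⟨(F.eval c3 - c4) / δ, ?_⟩, ⟨c3, ?_⟩⟩
        · rw [h2]
          push_cast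
          rfl
        · have h5 := hgrec ((m : ℤ) + 1)
          rw [map_sub, map_mul, hδψ, h1, ← hev, h2, ← h5]
          have e1 : ((m : ℤ) + 1 - 1) = m := by ring
          rw [e1]
          push_cast
          ring
        · have h5 := hgrec (-(m : ℤ))
          rw [map_div₀, map_sub, hδψ, h4, ← hev, h3, ← h5]
          have e1 : (-(m : ℤ) - 1) = -((m + 1 : ℕ) : ℤ) := by push_cast; ring
          rw [e1]
          have h6 : gm w (fun ω : ℕ × HC => ω.2.2) ≠ 0 := by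
            rw [← hδψ]
            exact (map_ne_zero ψ).2 hδ0
          field_simp
          ring
        · rw [h3]
          have e1 : (-((m + 1 : ℕ) : ℤ) + 1) = -(m : ℤ) := by push_cast; ring
          rw [e1]
    intro n
    rcases Int.eq_nat_or_neg n with ⟨m, h | h⟩
    · rw [h]
      exact (hpair m).1
    · rw [h]
      exact (hpair m).2.2.1
  choose xs hxs using hlift
  have hxrec : ∀ n, xs (n + 1) + δ * xs (n - 1) = F.eval (xs n) := by
    intro n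
    apply hψinj
    rw [map_add, map_mul, hxs, hxs, hδψ, hgrec]
    rw [← hFψ, ← hxs n]
    exact Polynomial.eval_map_apply _ _
  have hxinj : Function.Injective (fun n => (xs n, xs (n + 1))) := by
    intro i j hij
    by_contra hne
    simp only [Prod.mk.injEq] at hij
    have h1 : ∀ᶠ ω in (w.W : Filter (ℕ × HC)), x ω i = x ω j := by
      rw [← gm_eq w, ← hxs, ← hxs, hij.1]
    have h2 : ∀ᶠ ω in (w.W : Filter (ℕ × HC)), x ω (i + 1) = x ω (j + 1) := by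
      rw [← gm_eq w, ← hxs, ← hxs, hij.2]
    obtain ⟨ω, ⟨⟨⟨h3, h4⟩, h5⟩, h6⟩, h7⟩ :=
      ((((h1.and h2).and hTae).and (hNae i.natAbs)).and (hNae j.natAbs)).exists
    exact (hdt' ω h5).inj i j (by omega) (by omega) hne ⟨h3, h4⟩
  -- bounded degrees
  obtain ⟨b, hb⟩ := hstar A
  have hrel : ∀ j, ∃ c : Fin ρ → K, xs j = ∑ l, c l * t ^ (l : ℕ) ∧
      ∀ l, ∃ G : MvPolynomial (Fin (n + 1)) (kf 𝒰 X), G ≠ 0 ∧ G.totalDegree ≤ b ∧
        aeval (cn (c l) y) G = 0 := by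
    intro j
    refine hb (fun ω => x ω j) _ (hxs j) ?_
    filter_upwards [hTae, hNae j.natAbs] with ω hω hN
    exact (hdt' ω hω).orb j (by omega)
  obtain ⟨hδalg, hratio⟩ := hbn (kf 𝒰 X) K hFG n y hind hyalg F δ hFdeg hδ0 xs hxrec hxinj ρ b
    (fun l => t ^ (l : ℕ)) hrel
  -- conjugation
  obtain ⟨a', b', G, ha', hGE, hconj⟩ := hcj K (algebraicClosure (kf 𝒰 X) K).toSubfield F δ
    hFdeg (mem_algebraicClosure_iff.2 hδalg) xs hxrec hxinj (by
      intro i j p q hpq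
      exact mem_algebraicClosure_iff.2 (hratio i j p q hpq))
  have hgerm : ∀ c : K, IsAlgebraic (kf 𝒰 X) c →
      ∃ β : ℕ → ℂ, (ψ : K →+* RR w ℂ) c = gm w (fun ω => β ω.1) := by
    intro c hc
    have h2 : IsAlgebraic (kf 𝒰 X) (ψ c) := hc.algHom ψ
    obtain ⟨r, hr⟩ : ∃ r : ℕ × HC → ℂ, gm w r = ψ c := by
      generalize ψ c = x
      induction x using Germ.inductionOn with | _ r => exact ⟨r, rfl⟩
    rw [← hr] at h2
    obtain ⟨b', hb'⟩ := halg HC 𝒰 X w ℂ r h2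
    exact ⟨b', by rw [← hb', hr]; rfl⟩
  obtain ⟨GG, hGG⟩ := conj_aeH w d K (ψ : K →+* RR w ℂ) F δ hFψ hδψ a' b' ha' G
    (fun j => hgerm _ (mem_algebraicClosure_iff.1 (hGE j))) (hgerm _ hδalg) hconj
  have hB : {ω : ℕ × HC | ω ∈ T' ∧ CJH ω.2 (GG ω.1)} ∈ w.W := by
    have h1 : ∀ᶠ ω in (w.W : Filter (ℕ × HC)), ω ∈ T' ∧ CJH ω.2 (GG ω.1) := by
      filter_upwards [hTae, hGG] with ω h1 h2
      exact ⟨h1, h2 (hdt' ω h1).deg.le⟩
    exact h1
  refine hsub _ ?_ hB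
  intro N F hF F' hF'
  exact hrep N F hF.1.1 F' hF'.1.1 (hF.2.trans' hF'.2.symm')

/-- The maps with exceptional data lie in few conjugacy classes. -/
theorem fewH (habs : S_absD) (halg : S_alg) (hbn : S_hbakn) (hcj : S_hconj)
    (d : ℕ) (hd : 2 ≤ d) (D A a : ℕ) (ha : 1 ≤ a) : ∃ N : ℕ, 1 ≤ N ∧ ∀ X : ℕ, 2 ≤ X →
    ∃ 𝒢 : Finset HC, 𝒢.card ^ a ≤ N * X ∧
      ∀ F, (∃ r θ x, HDt d D A N X F r θ x) → ∃ G ∈ 𝒢, CJH F G := by
  classical
  by_contra hcon
  push Not at hcon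
  have h1 : ∀ N : ℕ, ∃ X : ℕ, 2 ≤ X ∧ N ≤ X ∧ ∃ 𝒢 : Finset HC,
      (N + 1) * X < 𝒢.card ^ a ∧ (∀ F ∈ 𝒢, ∀ G ∈ 𝒢, CJH F G → F = G) ∧
      ∀ F ∈ 𝒢, ∃ r θ x, HDt d D A (N + 1) X F r θ x := by
    intro N
    obtain ⟨X, hX, h⟩ := hcon ((N + 1) * (N + 2)) (Nat.mul_pos (by omega) (by omega))
    refine ⟨max X (N + 2), le_trans hX (le_max_left _ _), le_trans (by omega) (le_max_right _ _),
      ?_⟩
    rcases big_or_reps (fun F G : HC => CJH F G) (fun _ _ h => h.symm') (fun _ => CJH.refl' _)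
      {F | ∃ r θ x, HDt d D A ((N + 1) * (N + 2)) X F r θ x} a ((N + 1) * (N + 2) * X) ha with
      ⟨𝒢, h2, h3, h4⟩ | ⟨𝒢, h2, h3, h4⟩
    · refine ⟨𝒢, lt_of_le_of_lt ?_ h3, h4, fun F hF => ?_⟩
      · rcases le_total X (N + 2) with h5 | h5
        · rw [max_eq_right h5]
          exact Nat.le_mul_of_pos_right _ (by omega)
        · rw [max_eq_left h5]
          refine Nat.mul_le_mul_right X ?_
          exact Nat.le_mul_of_pos_right _ (by omega)
      · obtain ⟨r, θ, x, h5⟩ := h2 hF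
        exact ⟨r, θ, x, h5.mono (Nat.le_mul_of_pos_right _ (by omega)) (le_max_left _ _)⟩
    · obtain ⟨F, hF, hno⟩ := h 𝒢 h3
      obtain ⟨G, hG, hFG⟩ := h4 F hF
      exact absurd hFG (hno G hG)
  choose X hX2 hXN 𝒢 hcard hrep hdat using h1
  have hXt : Tendsto X atTop atTop := tendsto_atTop_mono hXN tendsto_id
  exact contraH habs halg hbn hcj d hd D A a ha X hX2 hXt 𝒢 hcard hrep hdat

end Pool.Agent.Q256.HX
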