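import Pool.Agent.Q256.FX.FewD
import Pool.Agent.Q256.HX.Stm

/-!
# Project HX (helper256): the generic Hénon map
-/

set_option autoImplicit false

open Filter Topology

namespace Pool.Agent.Q256.HX

open Pool.Agent.Q256.FX (UF RR gm gh gh_apply at' gm_eq gm_ne ne_gm kf cn Co)

/-- generalized Hénon maps over `ℂ` -/
abbrev HC : Type := Polynomial ℂ × ℂ

/-- conjugacy of Hénon maps by a map `(x, y) ↦ (a x + b, a y + b)` -/
def CJH (f g : HC) : Prop := f.2 = g.2 ∧
  ∃ a b : ℂ, a ≠ 0 ∧ ∀ z, f.1.eval (a * z + b) = a * g.1.eval z + (1 + f.2) * b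

theorem CJH.symm' {f g : HC} (h : CJH f g) : CJH g f := by
  obtain ⟨h1, a, b, ha, h⟩ := h
  refine ⟨h1.symm, a⁻¹, -(a⁻¹ * b), inv_ne_zero ha, fun z => ?_⟩
  have h2 := h (a⁻¹ * z + -(a⁻¹ * b))
  have h3 : a * (a⁻¹ * z + -(a⁻¹ * b)) + b = z := by
    field_simp
    ring
  rw [h3] at h2
  rw [h2, ← h1]
  field_simp
  ring

theorem CJH.trans' {f g l : HC} (h : CJH f g) (h' : CJH g l) : CJH f l := by
  obtain ⟨h1, a, b, ha, h⟩ := h
  obtain ⟨h1', a', b', ha', h'⟩ := h'
  refine ⟨h1.trans h1', a * a', a * b' + b, mul_ne_zero ha ha', fun z => ?_⟩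
  have h2 : a * a' * z + (a * b' + b) = a * (a' * z + b') + b := by ring
  rw [h2, h, h', ← h1]
  ring

theorem CJH.refl' (f : HC) : CJH f f := ⟨rfl, 1, 0, one_ne_zero, fun z => by simp⟩

/-- the generic polynomial over the ring of functions -/
noncomputable def Fhat (d : ℕ) : Polynomial (ℕ × HC → ℂ) :=
  ∑ j ∈ Finset.range (d + 1), Polynomial.monomial j (fun ω => ω.2.1.coeff j)

theorem at_Fhat {d : ℕ} (ω : ℕ × HC) (h : ω.2.1.natDegree ≤ d) :
    (Fhat d).map (at' ω) = ω.2.1 := by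
  unfold Fhat
  rw [Polynomial.map_sum]
  conv_rhs => rw [Polynomial.as_sum_range' ω.2.1 (d + 1) (by omega)]
  refine Finset.sum_congr rfl fun j _ => ?_
  rw [Polynomial.map_monomial]
  rfl

/-- a polynomial with vanishing germ vanishes almost everywhere -/
theorem pmap_zero_ae {𝒰 : Ultrafilter ℕ} {ι : Type} (w : UF 𝒰 ι) (p : Polynomial (ℕ × ι → ℂ))
    (h : p.map (gh w ℂ) = 0) : ∀ᶠ ω in (w.W : Filter (ℕ × ι)), p.map (at' ω) = 0 := by
  classical
  have h1 : ∀ j ∈ p.support, ∀ᶠ ω in (w.W : Filter (ℕ × ι)), p.coeff j ω = 0 := by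
    intro j _
    have h2 := congrArg (fun q => Polynomial.coeff q j) h
    simp only [Polynomial.coeff_map, Polynomial.coeff_zero, gh_apply] at h2
    have h3 : (0 : RR w ℂ) = gm w (0 : ℕ × ι → ℂ) := rfl
    rw [h3, gm_eq] at h2
    exact h2
  have h2 := (Filter.eventually_all_finset p.support).2 h1
  filter_upwards [h2] with ω hω
  ext j
  rw [Polynomial.coeff_map, Polynomial.coeff_zero]
  by_cases hj : j ∈ p.support
  · exact hω j hj
  · rw [Polynomial.notMem_support_iff.1 hj, map_zero]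

/-- the generic map is conjugate to a map with coefficients depending only on `N` -/
theorem conj_aeH {𝒰 : Ultrafilter ℕ} (w : UF 𝒰 HC) (d : ℕ) (K : Type) [Field K] [CharZero K]
    (ψ : K →+* RR w ℂ) (F : Polynomial K) (δ : K)
    (hF : F.map ψ = (Fhat d).map (gh w ℂ)) (hδ : ψ δ = gm w (fun ω => ω.2.2))
    (a b : K) (ha : a ≠ 0) (G : Polynomial K)
    (hG : ∀ j, ∃ β : ℕ → ℂ, ψ (G.coeff j) = gm w (fun ω => β ω.1))
    (hδ' : ∃ β : ℕ → ℂ, ψ δ = gm w (fun ω => β ω.1))
    (h : ∀ z, F.eval (a * z + b) = a * G.eval z + (1 + δ) * b) :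
    ∃ GG : ℕ → HC, ∀ᶠ ω in (w.W : Filter (ℕ × HC)), ω.2.1.natDegree ≤ d → CJH ω.2 (GG ω.1) := by
  classical
  have hrep : ∀ x : RR w ℂ, ∃ g : ℕ × HC → ℂ, gm w g = x := by
    intro x
    induction x using Germ.inductionOn with | _ g => exact ⟨g, rfl⟩
  obtain ⟨ah, hah⟩ := hrep (ψ a)
  obtain ⟨bh, hbh⟩ := hrep (ψ b)
  obtain ⟨dh, hdh⟩ := hδ'
  choose β hβ using hG
  let Ghat : Polynomial (ℕ × HC → ℂ) :=
    ∑ j ∈ G.support, Polynomial.monomial j (fun ω => β j ω.1)
  let GN : ℕ → Polynomial ℂ := fun N => ∑ j ∈ G.support, Polynomial.monomial j (β j N)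
  have hGhat : Ghat.map (gh w ℂ) = G.map ψ := by
    have h1 : G.map ψ = ∑ j ∈ G.support, Polynomial.monomial j (ψ (G.coeff j)) := by
      conv_lhs => rw [G.as_sum_support]
      rw [Polynomial.map_sum]
      refine Finset.sum_congr rfl fun j _ => ?_
      rw [Polynomial.map_monomial]
    rw [h1]
    simp only [Ghat]
    rw [Polynomial.map_sum]
    refine Finset.sum_congr rfl fun j _ => ?_
    rw [Polynomial.map_monomial, hβ, gh_apply]
  have hatG : ∀ ω : ℕ × HC, Ghat.map (at' ω) = GN ω.1 := by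
    intro ω
    simp only [Ghat, GN]
    rw [Polynomial.map_sum]
    refine Finset.sum_congr rfl fun j _ => ?_
    rw [Polynomial.map_monomial]
    rfl
  -- the polynomial identity over `K`
  have hpoly : F.comp (Polynomial.C a * Polynomial.X + Polynomial.C b) =
      Polynomial.C a * G + Polynomial.C ((1 + δ) * b) := by
    have : Infinite K := inferInstance
    apply Polynomial.funext
    intro z
    rw [Polynomial.eval_comp]
    simp only [Polynomial.eval_add, Polynomial.eval_mul, Polynomial.eval_C, Polynomial.eval_X]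
    exact h z
  -- over the ring of functions
  let P : Polynomial (ℕ × HC → ℂ) :=
    (Fhat d).comp (Polynomial.C ah * Polynomial.X + Polynomial.C bh) -
      (Polynomial.C ah * Ghat + Polynomial.C ((1 + fun ω => dh ω.1) * bh))
  have hP : ∀ {S : Type} [CommRing S] (φ : (ℕ × HC → ℂ) →+* S), P.map φ =
      ((Fhat d).map φ).comp (Polynomial.C (φ ah) * Polynomial.X + Polynomial.C (φ bh)) -
      (Polynomial.C (φ ah) * Ghat.map φ + Polynomial.C ((1 + φ (fun ω => dh ω.1)) * φ bh)) := by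
    intro S _ φ
    simp only [P]
    rw [Polynomial.map_sub, Polynomial.map_comp, Polynomial.map_add, Polynomial.map_add,
      Polynomial.map_mul, Polynomial.map_mul, Polynomial.map_C, Polynomial.map_C,
      Polynomial.map_C, Polynomial.map_X, map_mul, map_add, map_one]
  have hP0 : P.map (gh w ℂ) = 0 := by
    have h1 := congrArg (fun p => Polynomial.map ψ p) hpoly
    simp only [Polynomial.map_comp, Polynomial.map_add, Polynomial.map_mul, Polynomial.map_C,
      Polynomial.map_X, map_mul, map_add, map_one] at h1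
    rw [hP, sub_eq_zero]
    have e1 : gh w ℂ ah = ψ a := hah
    have e2 : gh w ℂ bh = ψ b := hbh
    have e3 : gh w ℂ (fun ω => dh ω.1) = ψ δ := hdh.symm
    rw [e1, e2, e3, hGhat, ← hF, h1]
    simp only [map_mul, map_add, map_one, Polynomial.map_one]
  have hae := pmap_zero_ae w P hP0
  have hane : ∀ᶠ ω in (w.W : Filter (ℕ × HC)), ah ω ≠ 0 := by
    apply gm_ne w
    rw [hah]
    exact (map_ne_zero ψ).2 ha
  have hdd : ∀ᶠ ω in (w.W : Filter (ℕ × HC)), ω.2.2 = dh ω.1 := by
    rw [hδ] at hdh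
    exact (gm_eq w).1 hdh
  refine ⟨fun N => (GN N, dh N), ?_⟩
  filter_upwards [hae, hane, hdd] with ω h1 h2 h3 h4
  refine ⟨h3, ah ω, bh ω, h2, fun z => ?_⟩
  rw [hP, sub_eq_zero, at_Fhat ω h4, hatG] at h1
  have h6 := congrArg (Polynomial.eval z) h1
  rw [Polynomial.eval_comp] at h6
  simp only [Polynomial.eval_add, Polynomial.eval_mul, Polynomial.eval_C, Polynomial.eval_X] at h6
  rw [h3]
  exact h6

end Pool.Agent.Q256.HX
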