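import Pool.Agent.Q256.HX.Stm

/-!
# Project HX (helper256): the canonical height for Hénon maps, statement of a job
-/

set_option autoImplicit false

open Filter Topology

namespace Pool.Agent.Q256.HX

/-- HHC: the canonical heights `ĥ⁺`, `ĥ⁻` of a point exist, and the height of the point is at most
`ĥ⁺ + ĥ⁻ + A log X`, for maps with coefficients of height at most `X` over number fields of bounded
degree. -/
def S_hhc : Prop := ∀ d D : ℕ, 2 ≤ d → ∃ A : ℕ, ∀ (K : Type) [Field K] [NumberField K],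
  Module.finrank ℚ K ≤ D → ∀ X : ℕ, 2 ≤ X → ∀ (F : Polynomial K) (δ : K), F.natDegree = d →
    δ ≠ 0 → (∀ i, Height.mulHeight₁ (F.coeff i) ≤ X) → Height.mulHeight₁ δ ≤ X →
  ∀ x : ℤ → K, (∀ n, x (n + 1) + δ * x (n - 1) = F.eval (x n)) →
    ∃ hp hm : ℝ,
      Tendsto (fun j : ℕ => Real.log (Height.mulHeight ![1, x (j : ℤ), x ((j : ℤ) + 1)]) /
        (d : ℝ) ^ j) atTop (𝓝 hp) ∧
      Tendsto (fun j : ℕ => Real.log (Height.mulHeight ![1, x (-(j : ℤ)), x (-(j : ℤ) + 1)]) /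
        (d : ℝ) ^ j) atTop (𝓝 hm) ∧
      Real.log (Height.mulHeight ![1, x 0, x 1]) ≤ hp + hm + A * Real.log X

end Pool.Agent.Q256.HX
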